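import Pool.Agent.Q19.Energy

set_option autoImplicit false

/-!
# MP_8ce0fa_co: an energy decreasing subdivision outside the two conditions

Q1 is answered in the negative by a graph on 12 vertices with 46 edges.
-/

namespace Pool.Agent.Results.MP_8ce0fa_co.EnergyDrops

open Matrix Finset

open Classical in
/-- The energy of a graph: the sum of the absolute values of the eigenvalues of its adjacency
matrix, with multiplicity. -/
noncomputable def energy {n : ℕ} (G : SimpleGraph (Fin n)) : ℝ :=
  ∑ k, |(show (G.adjMatrix ℝ).IsHermitian from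
    (conjTranspose_eq_transpose_of_trivial (G.adjMatrix ℝ)).trans G.isSymm_adjMatrix).eigenvalues k|

/-- The graph obtained by subdividing the edge `ij`: the vertex `a` of `G` is `a.castSucc`, the new
vertex is `Fin.last n`. -/
def subdivide {n : ℕ} (G : SimpleGraph (Fin n)) (i j : Fin n) : SimpleGraph (Fin (n + 1)) where
  Adj a b :=
    (∃ a' b' : Fin n, a = a'.castSucc ∧ b = b'.castSucc ∧ G.Adj a' b' ∧ s(a', b') ≠ s(i, j)) ∨
    (a = Fin.last n ∧ (b = i.castSucc ∨ b = j.castSucc)) ∨
    (b = Fin.last n ∧ (a = i.castSucc ∨ a = j.castSucc))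
  symm := ⟨by
    rintro a b (⟨a', b', h1, h2, h3, h4⟩ | h | h)
    · exact Or.inl ⟨b', a', h2, h1, h3.symm, by rwa [Sym2.eq_swap]⟩
    · exact Or.inr (Or.inr h)
    · exact Or.inr (Or.inl h)⟩
  loopless := ⟨by
    rintro a (⟨a', b', h1, h2, h3, h4⟩ | ⟨h1, h2⟩ | ⟨h1, h2⟩)
    · exact h3.ne (Fin.castSucc_injective n (h1.symm.trans h2))
    · rcases h2 with h2 | h2 <;> exact absurd (h2.symm.trans h1) (Fin.castSucc_ne_last _)
    · rcases h2 with h2 | h2 <;> exact absurd (h2.symm.trans h1) (Fin.castSucc_ne_last _)⟩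

/-- Condition 1: `ij` is the central edge of an induced diamond, that is, there are two further
distinct vertices `a, b`, both adjacent to `i` and to `j` and not adjacent to each other. -/
def CentralInDiamond {n : ℕ} (G : SimpleGraph (Fin n)) (i j : Fin n) : Prop :=
  G.Adj i j ∧ ∃ a b, a ≠ b ∧ G.Adj i a ∧ G.Adj j a ∧ G.Adj i b ∧ G.Adj j b ∧ ¬ G.Adj a b

/-- The closed neighbourhood. -/
def closedNbhd {n : ℕ} (G : SimpleGraph (Fin n)) (i : Fin n) : Set (Fin n) :=
  {a | a = i ∨ G.Adj i a}

/-- Condition 2: `N[i] = N[j] = W`, `G[W]` is complete and every vertex of `W` other than `i, j`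
has degree larger than the degree of `i`. -/
def SimplicialTwins {n : ℕ} (G : SimpleGraph (Fin n)) (i j : Fin n) : Prop :=
  closedNbhd G i = closedNbhd G j ∧
  (∀ a ∈ closedNbhd G i, ∀ b ∈ closedNbhd G i, a ≠ b → G.Adj a b) ∧
  (∀ a ∈ closedNbhd G i, a ≠ i → a ≠ j → (G.neighborSet i).ncard < (G.neighborSet a).ncard)

open Q19.Psd

/-- adjacency matrix -/
def adjL : List (List ℤ) := [
  [0, 1, 1, 0, 0, 1, 0, 0, 0, 1, 0, 1],
  [1, 0, 1, 0, 0, 1, 0, 1, 0, 1, 0, 1],
  [1, 1, 0, 1, 1, 1, 0, 1, 1, 1, 1, 1],
  [0, 0, 1, 0, 1, 0, 1, 1, 1, 1, 1, 1],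
  [0, 0, 1, 1, 0, 1, 1, 1, 1, 0, 1, 1],
  [1, 1, 1, 0, 1, 0, 1, 0, 1, 1, 1, 1],
  [0, 0, 0, 1, 1, 1, 0, 0, 1, 1, 1, 1],
  [0, 1, 1, 1, 1, 0, 0, 0, 0, 0, 0, 1],
  [0, 0, 1, 1, 1, 1, 1, 0, 0, 1, 1, 0],
  [1, 1, 1, 1, 0, 1, 1, 0, 1, 0, 1, 1],
  [0, 0, 1, 1, 1, 1, 1, 0, 1, 1, 0, 1],
  [1, 1, 1, 1, 1, 1, 1, 1, 0, 1, 1, 0]]

/-- adjacency matrix of the subdivision -/
def adjB : List (List ℤ) := [
  [0, 0, 1, 0, 0, 1, 0, 0, 0, 1, 0, 1, 1],
  [0, 0, 1, 0, 0, 1, 0, 1, 0, 1, 0, 1, 1],
  [1, 1, 0, 1, 1, 1, 0, 1, 1, 1, 1, 1, 0],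
  [0, 0, 1, 0, 1, 0, 1, 1, 1, 1, 1, 1, 0],
  [0, 0, 1, 1, 0, 1, 1, 1, 1, 0, 1, 1, 0],
  [1, 1, 1, 0, 1, 0, 1, 0, 1, 1, 1, 1, 0],
  [0, 0, 0, 1, 1, 1, 0, 0, 1, 1, 1, 1, 0],
  [0, 1, 1, 1, 1, 0, 0, 0, 0, 0, 0, 1, 0],
  [0, 0, 1, 1, 1, 1, 1, 0, 0, 1, 1, 0, 0],
  [1, 1, 1, 1, 0, 1, 1, 0, 1, 0, 1, 1, 0],
  [0, 0, 1, 1, 1, 1, 1, 0, 1, 1, 0, 1, 0],
  [1, 1, 1, 1, 1, 1, 1, 1, 0, 1, 1, 0, 0],
  [1, 1, 0, 0, 0, 0, 0, 0, 0, 0, 0, 0, 0]]

/-- `10^12` times an approximation of the sign of the adjacency matrix -/
def sZ : List (List ℤ) := [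
  [-378456352011, 542001264435, 226597262411, -259020412581, -259020412581, 379642866769,
    -105974808223, -96662014915, -105974808223, 379642866769, -71187108251, 226597262411],
  [542001264435, -379372055344, 337396735554, -112517536133, -112517536133, 220970237835,
    -228944033853, 286640170689, -228944033853, 220970237835, -153847964015, 337396735554],
  [226597262411, 337396735554, -317593387520, -31319867945, 436344167477, 399725060839,
    -313501419586, 374015842192, 362431475365, -67938974583, 87267225406, 5973717530],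
  [-259020412581, -112517536133, -31319867945, -363808224513, 312124670437, -211027814526,
    455983828905, 410634948830, -11680206516, 112539290524, 253409763283, 436344167477],
  [-259020412581, -112517536133, 436344167477, 312124670437, -363808224513, 112539290524,
    -11680206516, 410634948830, 455983828905, -211027814526, 253409763283, -31319867945],
  [379642866769, 220970237835, 399725060839, -211027814526, 112539290524, -387232026153,
    1515098482, -278758445489, 469179133904, 288700868798, 230901664977, -67938974583],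
  [-105974808223, -228944033853, -313501419586, 455983828905, -11680206516, 1515098482,
    -228499653026, -242139338851, 95067452023, 469179133904, 397044202853, 362431475365],
  [-96662014915, 286640170689, 374015842192, 410634948830, 410634948830, -278758445489,
    -242139338851, -23466434992, -242139338851, -278758445489, -131339865708, 374015842192],
  [-105974808223, -228944033853, 362431475365, -11680206516, 455983828905, 469179133904,
    95067452023, -242139338851, -228499653026, 1515098482, 397044202853, -313501419586],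
  [379642866769, 220970237835, -67938974583, 112539290524, -211027814526, 288700868798,
    469179133904, -278758445489, 1515098482, -387232026153, 230901664977, 399725060839],
  [-71187108251, -153847964015, 87267225406, 253409763283, 253409763283, 230901664977,
    397044202853, -131339865708, 397044202853, 230901664977, -622438575228, 87267225406],
  [226597262411, 337396735554, 5973717530, 436344167477, -31319867945, -67938974583,
    362431475365, 374015842192, -313501419586, 399725060839, 87267225406, -317593387520]]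

/-- `10^12` times an approximation of the positive part of the second adjacency matrix -/
def xZ : List (List ℤ) := [
  [758207844696, 650784286345, 570999651400, 89717547612, 89717547612, 677923209751,
    196641105963, 108172774753, 196641105963, 677923209751, 271067818000, 570999651400,
    481282103788],
  [650784286345, 849143244009, 752653211998, 280247543820, 280247543820, 554794254334,
    82388586157, 586545746944, 82388586157, 554794254334, 209063631479, 752653211998,
    472405668178],
  [570999651400, 752653211998, 1051411542329, 800595594566, 800595594566, 869257981731,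
    618942033967, 709507307359, 618942033967, 869257981731, 756905887850, 1050911542329,
    250315947763],
  [89717547612, 280247543820, 800595594566, 940255115569, 939755115569, 610065598357,
    749225119361, 618571908046, 749225119361, 610065598357, 837974782840, 800595594566,
    -139159521004],
  [89717547612, 280247543820, 800595594566, 939755115569, 940255115569, 610065598357,
    749225119361, 618571908046, 749225119361, 610065598357, 837974782840, 800595594566,
    -139159521004],
  [677923209751, 554794254334, 869257981731, 610065598357, 610065598357, 992886937147,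
    733194553773, 231134335169, 733194553773, 992386937147, 818910074371, 869257981731,
    259192383374],
  [196641105963, 82388586157, 618942033967, 749225119361, 749225119361, 733194553773,
    863977639167, 140198935856, 863477639167, 733194553773, 899978969361, 618942033967,
    -130283085393],
  [108172774753, 586545746944, 709507307359, 618571908046, 618571908046, 231134335169,
    140198935856, 942726071278, 140198935856, 231134335169, 269604163168, 709507307359,
    90935399313],
  [196641105963, 82388586157, 618942033967, 749225119361, 749225119361, 733194553773,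
    863477639167, 140198935856, 863977639167, 733194553773, 899978969361, 618942033967,
    -130283085393],
  [677923209751, 554794254334, 869257981731, 610065598357, 610065598357, 992386937147,
    733194553773, 231134335169, 733194553773, 992886937147, 818910074371, 869257981731,
    259192383374],
  [271067818000, 209063631479, 756905887850, 837974782840, 837974782840, 818910074371,
    899978969361, 269604163168, 899978969361, 818910074371, 959524120905, 756905887850,
    -81068894990],
  [570999651400, 752653211998, 1050911542329, 800595594566, 800595594566, 869257981731,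
    618942033967, 709507307359, 618942033967, 869257981731, 756905887850, 1051411542329,
    250315947763],
  [481282103788, 472405668178, 250315947763, -139159521004, -139159521004, 259192383374,
    -130283085393, 90935399313, -130283085393, 259192383374, -81068894990, 250315947763,
    389975468767]]

def r1 : List (List ℤ) := [
  [1173970, -461682, -193018, 220636, 220636, -323384, 90270, 82338, 90270, -323384, 60638,
    -193018],
  [0, 1079802, -394989, 198538, 198538, -342906, 250620, -230252, 250620, -342906, 168404,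
    -394989],
  [0, 0, 1060222, 143674, -297426, -563644, 405498, -423562, -232041, -122544, -8531, -187928],
  [0, 0, 0, 1120187, -319134, 385149, -521268, -287660, -22011, 39723, -266918, -257401],
  [0, 0, 0, 0, 1041706, -17123, -99590, -576812, -577608, 313608, -372411, 13715],
  [0, 0, 0, 0, 0, 835759, 647595, 106020, -581806, -705782, -74098, -163296],
  [0, 0, 0, 0, 0, 0, 540225, 348216, 436564, 378810, -1054195, -364422],
  [0, 0, 0, 0, 0, 0, 0, 485862, -485137, 637555, 503970, -927409],
  [0, 0, 0, 0, 0, 0, 0, 0, 69908, 7088, -86945, 39097],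
  [0, 0, 0, 0, 0, 0, 0, 0, 0, 41513, -20381, -21718],
  [0, 0, 0, 0, 0, 0, 0, 0, 0, 0, 36947, -4727],
  [0, 0, 0, 0, 0, 0, 0, 0, 0, 0, 0, 27068]]

def r2 : List (List ℤ) := [
  [788222, 687625, 287479, -328614, -328614, 481645, -134448, -122633, -134448, 481645, -90314,
    287479],
  [0, 384122, 363736, 295337, 295337, -286943, -355341, 965751, -355341, -286943, -238846,
    363736],
  [0, 0, 683527, -64775, 619418, 534922, -213013, 84842, 775877, -149271, 292758, -305730],
  [0, 0, 0, 660708, 237679, 100864, 761229, 137140, 150356, 523515, 474090, 610838],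
  [0, 0, 0, 0, 23675, 10360, 4230, -1449, 17695, 1044, 10615, -3536],
  [0, 0, 0, 0, 0, 42160, 33916, -42204, 37707, 33607, 31651, -1505],
  [0, 0, 0, 0, 0, 0, 29903, -11400, 6256, 17302, 12752, 9596],
  [0, 0, 0, 0, 0, 0, 0, 25523, -8409, -3566, -4208, 7887],
  [0, 0, 0, 0, 0, 0, 0, 0, 21662, -596, 4948, -5008],
  [0, 0, 0, 0, 0, 0, 0, 0, 0, 20202, 3217, 6343],
  [0, 0, 0, 0, 0, 0, 0, 0, 0, 0, 17584, 1165],
  [0, 0, 0, 0, 0, 0, 0, 0, 0, 0, 0, 19478]]

def r3 : List (List ℤ) := [
  [870608, 747506, 655863, 103052, 103052, 778678, 225866, 124250, 225866, 778678, 311355,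
    655863, 552812],
  [0, 538636, 487141, 377279, 377279, -50632, -160494, 916516, -160494, -50632, -43955, 487141,
    109862],
  [0, 0, 619434, 886648, 886648, 618656, 886274, 293080, 886274, 618656, 926834, 619030, -267618],
  [0, 0, 0, 30028, 21703, 13118, 22904, 4225, 22904, 13118, 23228, 11917, -9786],
  [0, 0, 0, 0, 20753, 5263, 9188, 1695, 9188, 5263, 9318, 4781, -3926],
  [0, 0, 0, 0, 0, 28263, 19247, -20921, 19247, 19417, 17501, 2413, 170],
  [0, 0, 0, 0, 0, 0, 22212, -10266, 10957, 7665, 9784, -253, -3293],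
  [0, 0, 0, 0, 0, 0, 0, 24009, -4812, -4431, -3319, 4487, 382],
  [0, 0, 0, 0, 0, 0, 0, 0, 18713, 3471, 5031, 1002, -1882],
  [0, 0, 0, 0, 0, 0, 0, 0, 0, 18203, 2617, 2180, 1921],
  [0, 0, 0, 0, 0, 0, 0, 0, 0, 0, 17558, 974, -1401],
  [0, 0, 0, 0, 0, 0, 0, 0, 0, 0, 0, 17385, 1351],
  [0, 0, 0, 0, 0, 0, 0, 0, 0, 0, 0, 0, 17396]]

def r4 : List (List ℤ) := [
  [870608, 747506, -492760, 103052, 103052, -369945, 225866, 124250, 225866, -369945, 311355,
    -492760, -595811],
  [0, 538636, 224630, 377279, 377279, -313143, -160494, -940026, -160494, -313143, -43955,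
    224630, -152649],
  [0, 0, 870569, -268069, -268069, -278777, 880219, -20802, -268455, -278777, -91661, -278392,
    -10322],
  [0, 0, 0, 845686, -337081, 817797, 26558, -53396, -337553, -364675, -238976, -364203, -27121],
  [0, 0, 0, 0, 775604, -42207, 40501, -81427, -514757, 733203, -364430, -555396, -41359],
  [0, 0, 0, 0, 0, 97104, -83726, 176809, -556310, 91956, 770609, -472702, 87852],
  [0, 0, 0, 0, 0, 0, 53028, -17051, 117627, -8129, -209163, 74046, -25868],
  [0, 0, 0, 0, 0, 0, 0, 43845, -88740, 17600, 124084, -85095, 10635],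
  [0, 0, 0, 0, 0, 0, 0, 0, 69117, -5008, -86163, 50559, -8174],
  [0, 0, 0, 0, 0, 0, 0, 0, 0, 23926, -14554, -3382, 582],
  [0, 0, 0, 0, 0, 0, 0, 0, 0, 0, 38203, -3464, 2734],
  [0, 0, 0, 0, 0, 0, 0, 0, 0, 0, 0, 23011, 2805],
  [0, 0, 0, 0, 0, 0, 0, 0, 0, 0, 0, 0, 17245]]

/-- the graph -/
def G : SimpleGraph (Fin 12) where
  Adj i j := rd 12 adjL i j = 1
  symm := ⟨by decide +kernel⟩
  loopless := ⟨by decide +kernel⟩

theorem adjG (h : ∀ a b, Decidable (G.Adj a b)) (a b : Fin 12) :
    (if G.Adj a b then (1 : ℝ) else 0) = (rd 12 adjL a b : ℝ) := by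
  have h01 : ∀ i j : Fin 12, rd 12 adjL i j = 1 ∨ rd 12 adjL i j = 0 := by decide +kernel
  rcases h01 a b with h1 | h1
  · rw [if_pos (show G.Adj a b from h1), h1]; simp
  · have h2 : ¬ G.Adj a b := show ¬ rd 12 adjL a b = 1 by rw [h1]; decide
    rw [if_neg h2, h1]; simp

theorem sub_iff (a b : Fin 13) : (subdivide G 0 1).Adj a b ↔ rd 13 adjB a b = 1 := by
  have k1 : ∀ a b : Fin 12, (rd 12 adjL a b = 1 ∧ ¬ (a = 0 ∧ b = 1 ∨ a = 1 ∧ b = 0)) ↔
      rd 13 adjB a.castSucc b.castSucc = 1 := by decide +kernel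
  have k2 : ∀ b : Fin 12, (b = 0 ∨ b = 1) ↔ rd 13 adjB (Fin.last 12) b.castSucc = 1 := by
    decide +kernel
  have k3 : ∀ b : Fin 12, (b = 0 ∨ b = 1) ↔ rd 13 adjB b.castSucc (Fin.last 12) = 1 := by
    decide +kernel
  have k4 : rd 13 adjB (Fin.last 12) (Fin.last 12) ≠ 1 := by decide +kernel
  have hne : ∀ c : Fin 12, c.castSucc ≠ Fin.last 12 := fun c => Fin.castSucc_ne_last c
  refine Fin.lastCases ?_ (fun a => ?_) a
  · refine Fin.lastCases ?_ (fun b => ?_) b
    · constructor
      · intro h; exact absurd h ((subdivide G 0 1).loopless.irrefl _)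
      · intro h; exact absurd h k4
    · rw [← k2]
      constructor
      · rintro (⟨a', b', h1, h2, h3, h4⟩ | ⟨h1, h2⟩ | ⟨h1, h2⟩)
        · exact absurd h1.symm (hne _)
        · rcases h2 with h2 | h2
          · exact Or.inl (Fin.castSucc_injective _ h2)
          · exact Or.inr (Fin.castSucc_injective _ h2)
        · exact absurd h1 (hne _)
      · rintro (h | h)
        · exact Or.inr (Or.inl ⟨rfl, Or.inl (by rw [h])⟩)
        · exact Or.inr (Or.inl ⟨rfl, Or.inr (by rw [h])⟩)
  · refine Fin.lastCases ?_ (fun b => ?_) b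
    · rw [← k3]
      constructor
      · rintro (⟨a', b', h1, h2, h3, h4⟩ | ⟨h1, h2⟩ | ⟨h1, h2⟩)
        · exact absurd h2.symm (hne _)
        · exact absurd h1 (hne _)
        · rcases h2 with h2 | h2
          · exact Or.inl (Fin.castSucc_injective _ h2)
          · exact Or.inr (Fin.castSucc_injective _ h2)
      · rintro (h | h)
        · exact Or.inr (Or.inr ⟨rfl, Or.inl (by rw [h])⟩)
        · exact Or.inr (Or.inr ⟨rfl, Or.inr (by rw [h])⟩)
    · rw [← k1]
      constructor
      · rintro (⟨a', b', h1, h2, h3, h4⟩ | ⟨h1, h2⟩ | ⟨h1, h2⟩)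
        · rw [Fin.castSucc_injective _ h1, Fin.castSucc_injective _ h2]
          refine ⟨h3, fun hc => h4 ?_⟩
          rw [Sym2.eq_iff]; exact hc
        · exact absurd h1 (hne _)
        · exact absurd h1 (hne _)
      · rintro ⟨h1, h2⟩
        refine Or.inl ⟨a, b, rfl, rfl, h1, fun hc => h2 ?_⟩
        rwa [Sym2.eq_iff] at hc

theorem adjS (h : ∀ a b, Decidable ((subdivide G 0 1).Adj a b)) (a b : Fin 13) :
    (if (subdivide G 0 1).Adj a b then (1 : ℝ) else 0) = (rd 13 adjB a b : ℝ) := by
  have h01 : ∀ i j : Fin 13, rd 13 adjB i j = 1 ∨ rd 13 adjB i j = 0 := by decide +kernel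
  rcases h01 a b with h1 | h1
  · rw [if_pos ((sub_iff a b).2 h1), h1]; simp
  · rw [if_neg (fun h => by rw [sub_iff, h1] at h; exact absurd h (by decide)), h1]; simp

/-- real matrix with entries `Z i j / 10^12` -/
noncomputable def sc {n : ℕ} (Z : Fin n → Fin n → ℤ) : Matrix (Fin n) (Fin n) ℝ :=
  fun i j => (Z i j : ℝ) / 10 ^ 12

theorem sc_form {n : ℕ} (Z : Fin n → Fin n → ℤ) (z : Fin n → ℝ) :
    z ⬝ᵥ (sc Z *ᵥ z) = (∑ i, ∑ j, (Z i j : ℝ) * (z i * z j)) / 10 ^ 12 := by
  simp only [dotProduct, mulVec, sc]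
  rw [Finset.sum_div]
  apply Finset.sum_congr rfl; intro i _
  rw [Finset.mul_sum, Finset.sum_div]
  apply Finset.sum_congr rfl; intro j _
  ring

theorem sc_nonneg {n : ℕ} (Z R : Fin n → Fin n → ℤ) (h : Cert Z R) (z : Fin n → ℝ) :
    0 ≤ z ⬝ᵥ (sc Z *ᵥ z) := by
  rw [sc_form]
  exact div_nonneg (cert_nonneg Z R h z) (by norm_num)

theorem self_form {n : ℕ} (z : Fin n → ℝ) :
    z ⬝ᵥ z = (∑ i, ∑ j, ((if i = j then (10 : ℝ) ^ 12 else 0)) * (z i * z j)) / 10 ^ 12 := by
  simp only [dotProduct]
  rw [Finset.sum_div]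
  apply Finset.sum_congr rfl; intro i _
  simp

theorem c1 : Cert (fun i j => (if i = j then 10 ^ 12 else 0) - rd 12 sZ i j) (rd 12 r1) := by
  decide +kernel
theorem c2 : Cert (fun i j => (if i = j then 10 ^ 12 else 0) + rd 12 sZ i j) (rd 12 r2) := by
  decide +kernel
theorem c3 : Cert (rd 13 xZ) (rd 13 r3) := by
  decide +kernel
theorem c4 : Cert (fun i j => rd 13 xZ i j - 10 ^ 12 * rd 13 adjB i j) (rd 13 r4) := by
  decide +kernel

theorem lower : (232396 / 10000 : ℝ) ≤ energy G := by
  classical
  unfold energy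
  refine le_trans ?_ (Q19.Energy.lower_le _ (sc (rd 12 sZ)) (fun z => ?_) (fun z => ?_))
  · have h1 : (∑ i, ∑ j, rd 12 adjL i j * rd 12 sZ j i : ℤ) ≥ 23239600000000 := by decide +kernel
    have h2 : ((∑ i, ∑ j, rd 12 adjL i j * rd 12 sZ j i : ℤ) : ℝ) ≥ 23239600000000 := by
      exact_mod_cast h1
    have h3 : (G.adjMatrix ℝ * sc (rd 12 sZ)).trace =
        ((∑ i, ∑ j, rd 12 adjL i j * rd 12 sZ j i : ℤ) : ℝ) / 10 ^ 12 := by
      push_cast
      rw [trace, Finset.sum_div]
      apply Finset.sum_congr rfl; intro i _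
      rw [diag_apply, mul_apply, Finset.sum_div]
      apply Finset.sum_congr rfl; intro j _
      rw [SimpleGraph.adjMatrix_apply, adjG, sc]
      ring
    rw [h3, le_div_iff₀ (by norm_num)]
    refine le_trans (by norm_num) h2
  · have h := cert_nonneg _ _ c1 z
    rw [sc_form, self_form, ← sub_div]
    refine div_nonneg ?_ (by norm_num)
    refine le_trans h (le_of_eq ?_)
    rw [← Finset.sum_sub_distrib]
    apply Finset.sum_congr rfl; intro i _
    rw [← Finset.sum_sub_distrib]
    apply Finset.sum_congr rfl; intro j _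
    push_cast; split_ifs <;> ring
  · have h := cert_nonneg _ _ c2 z
    rw [sc_form, self_form, ← add_div]
    refine div_nonneg ?_ (by norm_num)
    refine le_trans h (le_of_eq ?_)
    rw [← Finset.sum_add_distrib]
    apply Finset.sum_congr rfl; intro i _
    rw [← Finset.sum_add_distrib]
    apply Finset.sum_congr rfl; intro j _
    push_cast; split_ifs <;> ring

theorem upper : energy (subdivide G 0 1) ≤ (231933 / 10000 : ℝ) := by
  classical
  unfold energy
  refine le_trans (Q19.Energy.le_upper _ (sc (rd 13 xZ))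
    (sc (fun i j => rd 13 xZ i j - 10 ^ 12 * rd 13 adjB i j)) (sc_nonneg _ _ c3)
    (sc_nonneg _ _ c4) ?_) ?_
  · ext i j
    rw [SimpleGraph.adjMatrix_apply, adjS]
    simp only [Matrix.sub_apply, sc]
    push_cast
    ring
  · have h1 : (∑ i, rd 13 xZ i i : ℤ) + ∑ i, (rd 13 xZ i i - 10 ^ 12 * rd 13 adjB i i : ℤ) ≤
        23193300000000 := by decide +kernel
    have h2 : (((∑ i, rd 13 xZ i i : ℤ) + ∑ i, (rd 13 xZ i i - 10 ^ 12 * rd 13 adjB i i : ℤ) : ℤ) : ℝ) ≤
        23193300000000 := by exact_mod_cast h1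
    have h3 : (sc (rd 13 xZ)).trace +
        (sc (fun i j => rd 13 xZ i j - 10 ^ 12 * rd 13 adjB i j)).trace =
        (((∑ i, rd 13 xZ i i : ℤ) + ∑ i, (rd 13 xZ i i - 10 ^ 12 * rd 13 adjB i i : ℤ) : ℤ) : ℝ) /
          10 ^ 12 := by
      push_cast
      simp only [trace, diag_apply, sc]
      rw [add_div, Finset.sum_div, Finset.sum_div]
      push_cast
      rfl
    rw [h3, div_le_iff₀ (by norm_num)]
    refine le_trans h2 (by norm_num)

/-- **Q1 is false.**  There are a connected graph on 12 vertices and an edge `ij` of it whose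
subdivision decreases the energy, although `ij` is not the central edge of an induced diamond and
`N[i] ≠ N[j]`; in particular neither condition 1 nor condition 2 holds. -/
theorem result :
    ∃ (G : SimpleGraph (Fin 12)) (i j : Fin 12), G.Connected ∧ G.Adj i j ∧
      energy (subdivide G i j) < energy G ∧ ¬ CentralInDiamond G i j ∧
      closedNbhd G i ≠ closedNbhd G j ∧ ¬ SimplicialTwins G i j ∧ ¬ SimplicialTwins G j i := by
  have hne : closedNbhd G 0 ≠ closedNbhd G 1 := by
    intro h
    have h7 : (7 : Fin 12) ∈ closedNbhd G 1 := Or.inr (show rd 12 adjL 1 7 = 1 by decide +kernel)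
    rw [← h] at h7
    rcases h7 with h7 | h7
    · exact absurd h7 (by decide)
    · exact absurd (show rd 12 adjL 0 7 = 1 from h7) (by decide +kernel)
  refine ⟨G, 0, 1, ?_, ?_, ?_, ?_, hne, fun h => hne h.1, fun h => hne h.1.symm⟩
  · have h0 : ∀ a, G.Reachable 2 a := by
      intro a
      have : a = 2 ∨ rd 12 adjL 2 a = 1 ∨ rd 12 adjL 3 a = 1 := by revert a; decide +kernel
      rcases this with h | h | h
      · rw [h]
      · exact SimpleGraph.Adj.reachable h
      · exact (SimpleGraph.Adj.reachable (show G.Adj 2 3 from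
          (show rd 12 adjL 2 3 = 1 by decide +kernel))).trans (SimpleGraph.Adj.reachable h)
    exact { preconnected := fun i j => (h0 i).symm.trans (h0 j), nonempty := ⟨0⟩ }
  · exact (show rd 12 adjL 0 1 = 1 by decide +kernel)
  · refine lt_of_le_of_lt upper (lt_of_lt_of_le ?_ lower)
    norm_num
  · rintro ⟨-, a, b, h⟩
    have : ∀ a b : Fin 12, ¬ (a ≠ b ∧ rd 12 adjL 0 a = 1 ∧ rd 12 adjL 1 a = 1 ∧
        rd 12 adjL 0 b = 1 ∧ rd 12 adjL 1 b = 1 ∧ ¬ rd 12 adjL a b = 1) := by decide +kernel
    exact this a b h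

end Pool.Agent.Results.MP_8ce0fa_co.EnergyDrops
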